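import Pool.Agent.W785.FD.Stms

/-! FD-POT2 (helper782): the `L^p` bound of the potential. -/

set_option autoImplicit false

open MeasureTheory Metric Set Filter
open scoped ENNReal NNReal Topology

namespace Pool.Agent.W782.FD.Pot2

open Pool.Agent.W785.FD

theorem sfin {X : Type*} [MetricSpace X] [ProperSpace X] [MeasurableSpace X] [BorelSpace X]
    {μ : Measure X} {D : ℝ} (hD : Dbl μ D) : SFinite μ := by
  have h1 : IsLocallyFiniteMeasure μ :=
    ⟨fun x => ⟨ball x 1, ball_mem_nhds x one_pos, hD.fin x 1⟩⟩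
  infer_instance

theorem meas_int {X : Type*} [MetricSpace X] [ProperSpace X] [MeasurableSpace X] [BorelSpace X]
    {μ : Measure X} {D : ℝ} (hD : Dbl μ D) {f : X → ℝ≥0∞} (hf : Measurable f) (s : ℝ) :
    Measurable (fun z => ∫⁻ y in ball z s, f y ∂μ) := by
  have := sfin hD
  have h1 : (fun z => ∫⁻ y in ball z s, f y ∂μ) =
      fun z => ∫⁻ y, ({p : X × X | dist p.2 p.1 < s}.indicator (fun p => f p.2)) (z, y) ∂μ := by
    ext z
    rw [← lintegral_indicator measurableSet_ball]
    rfl
  rw [h1]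
  apply Measurable.lintegral_prod_right'
  apply Measurable.indicator (hf.comp measurable_snd)
  exact (isOpen_lt (continuous_snd.dist continuous_fst) continuous_const).measurableSet

theorem meas_lav {X : Type*} [MetricSpace X] [ProperSpace X] [MeasurableSpace X] [BorelSpace X]
    {μ : Measure X} {D : ℝ} (hD : Dbl μ D) {f : X → ℝ≥0∞} (hf : Measurable f) (s : ℝ) :
    Measurable (fun z => lav μ f z s) := by
  unfold lav
  have h1 := meas_int hD hf s
  have h2 := meas_int hD (f := fun _ => (1 : ℝ≥0∞)) measurable_const s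
  simp only [lintegral_const, one_mul, Measure.restrict_apply MeasurableSet.univ,
    Set.univ_inter] at h2
  exact h1.div h2

/-- the weighted Hoelder inequality for series -/
theorem holder {p : ℝ} (hp : 1 < p) (w b : ℕ → ℝ≥0∞) :
    (∑' i, w i * b i) ^ p ≤ (∑' i, w i) ^ (p - 1) * ∑' i, w i * b i ^ p := by
  have hp0 : 0 < p := by linarith
  set q := p / (p - 1) with hq
  have hpq : p.HolderConjugate q := by
    rw [hq]
    exact Real.HolderConjugate.conjExponent hp
  have hq0 : 0 < q := hpq.symm.pos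
  have h := ENNReal.lintegral_mul_le_Lp_mul_Lq (Measure.count : Measure ℕ) hpq
    (f := fun i => w i ^ (1 / p) * b i) (g := fun i => w i ^ (1 / q))
    (Measurable.of_discrete.aemeasurable) (Measurable.of_discrete.aemeasurable)
  simp only [lintegral_count, Pi.mul_apply] at h
  have e1 : ∀ i, w i ^ (1 / p) * b i * w i ^ (1 / q) = w i * b i := by
    intro i
    have h1 : w i ^ (1 / p) * w i ^ (1 / q) = w i := by
      rw [← ENNReal.rpow_add_of_nonneg _ _ (by positivity) (by positivity)]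
      have : 1 / p + 1 / q = 1 := by
        have := hpq.inv_add_inv_eq_one
        simpa [one_div] using this
      rw [this, ENNReal.rpow_one]
    calc _ = (w i ^ (1 / p) * w i ^ (1 / q)) * b i := by ring
      _ = _ := by rw [h1]
  have e2 : ∀ i, (w i ^ (1 / p) * b i) ^ p = w i * b i ^ p := by
    intro i
    rw [ENNReal.mul_rpow_of_nonneg _ _ hp0.le, ← ENNReal.rpow_mul, one_div,
      inv_mul_cancel₀ hp0.ne', ENNReal.rpow_one]
  have e3 : ∀ i, (w i ^ (1 / q)) ^ q = w i := by
    intro i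
    rw [← ENNReal.rpow_mul, one_div, inv_mul_cancel₀ hq0.ne', ENNReal.rpow_one]
  simp only [e1, e2, e3] at h
  have h2 := ENNReal.rpow_le_rpow h hp0.le
  refine h2.trans (le_of_eq ?_)
  rw [ENNReal.mul_rpow_of_nonneg _ _ hp0.le, ← ENNReal.rpow_mul, ← ENNReal.rpow_mul, one_div,
    inv_mul_cancel₀ hp0.ne', ENNReal.rpow_one, mul_comm]
  congr 2
  rw [hq]
  have : p - 1 ≠ 0 := by linarith
  field_simp

theorem main {X : Type*} [MetricSpace X] [ProperSpace X] [MeasurableSpace X] [BorelSpace X]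
    (μ : Measure X) (p D : ℝ) (hp : 1 < p) (hD : Dbl μ D) (h : S_FA μ D) : S_POT2 μ p D := by
  intro Λ hΛ g hg x R r hR hr
  have hp0 : 0 < p := by linarith
  have hgp : Measurable (fun y => g y ^ p) := hg.pow_const p
  have hw : ∑' i : ℕ, ((2 : ℝ≥0∞)⁻¹) ^ i = 2 := by
    rw [ENNReal.tsum_geometric, ENNReal.one_sub_inv_two, inv_inv]
  have hof : ∀ i : ℕ, ENNReal.ofReal (r / 2 ^ i) = ((2 : ℝ≥0∞)⁻¹) ^ i * ENNReal.ofReal r := by
    intro i
    rw [div_eq_mul_inv, ENNReal.ofReal_mul hr.le, mul_comm, ← inv_pow,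
      ENNReal.ofReal_pow (by norm_num), ENNReal.ofReal_inv_of_pos (by norm_num)]
    norm_num
  have h1 : ∀ z, Pot μ p g Λ r z ^ p ≤ 2 ^ (p - 1) * (ENNReal.ofReal r ^ p *
      ∑' i : ℕ, ((2 : ℝ≥0∞)⁻¹) ^ i * lav μ (fun y => g y ^ p) z (Λ * (r / 2 ^ i))) := by
    intro z
    unfold Pot
    simp only [hof]
    have h2 := holder hp (fun i => ((2 : ℝ≥0∞)⁻¹) ^ i) (fun i => ENNReal.ofReal r *
      (lav μ (fun y => g y ^ p) z (Λ * (r / 2 ^ i))) ^ (1 / p))
    simp only [hw] at h2
    refine le_trans (le_of_eq ?_) (h2.trans (le_of_eq ?_))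
    · congr 1
      apply tsum_congr
      intro i
      ring
    · congr 1
      rw [← ENNReal.tsum_mul_left]
      apply tsum_congr
      intro i
      rw [ENNReal.mul_rpow_of_nonneg _ _ hp0.le, ← ENNReal.rpow_mul, one_div,
        inv_mul_cancel₀ hp0.ne', ENNReal.rpow_one]
      ring
  set J := ∫⁻ y in ball x (R + Λ * r), g y ^ p ∂μ with hJ
  have h3 : ∀ i : ℕ, ∫⁻ z in ball x R, lav μ (fun y => g y ^ p) z (Λ * (r / 2 ^ i)) ∂μ ≤
      ENNReal.ofReal D * J := by
    intro i
    refine (h _ hgp x R (Λ * (r / 2 ^ i)) (by positivity)).trans ?_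
    gcongr
    rw [hJ]
    apply lintegral_mono_set
    apply ball_subset_ball
    have h4 : r / 2 ^ i ≤ r := div_le_self hr.le (one_le_pow₀ (by norm_num))
    have h5 := mul_le_mul_of_nonneg_left h4 hΛ.le
    linarith
  calc ∫⁻ z in ball x R, Pot μ p g Λ r z ^ p ∂μ
      ≤ ∫⁻ z in ball x R, 2 ^ (p - 1) * (ENNReal.ofReal r ^ p * ∑' i : ℕ, ((2 : ℝ≥0∞)⁻¹) ^ i *
          lav μ (fun y => g y ^ p) z (Λ * (r / 2 ^ i))) ∂μ := lintegral_mono fun z => h1 z
    _ = 2 ^ (p - 1) * (ENNReal.ofReal r ^ p * ∑' i : ℕ, ((2 : ℝ≥0∞)⁻¹) ^ i *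
          ∫⁻ z in ball x R, lav μ (fun y => g y ^ p) z (Λ * (r / 2 ^ i)) ∂μ) := by
        rw [lintegral_const_mul' _ _ (by
            exact ENNReal.rpow_ne_top_of_nonneg (by linarith) (by norm_num)),
          lintegral_const_mul' _ _ (by
            exact ENNReal.rpow_ne_top_of_nonneg hp0.le ENNReal.ofReal_ne_top),
          lintegral_tsum]
        · congr 2
          apply tsum_congr
          intro i
          rw [lintegral_const_mul]
          exact meas_lav hD hgp _
        · intro i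
          exact ((meas_lav hD hgp _).const_mul _).aemeasurable
    _ ≤ 2 ^ (p - 1) * (ENNReal.ofReal r ^ p * ∑' i : ℕ, ((2 : ℝ≥0∞)⁻¹) ^ i *
          (ENNReal.ofReal D * J)) := by
        gcongr with i
        exact h3 i
    _ = ENNReal.ofReal (2 ^ p * D * r ^ p) * J := by
        rw [ENNReal.tsum_mul_right, hw]
        have e1 : ENNReal.ofReal (2 ^ p * D * r ^ p) =
            2 ^ p * ENNReal.ofReal D * ENNReal.ofReal r ^ p := by
          rw [ENNReal.ofReal_mul (mul_nonneg (by positivity) (by linarith [hD.one_le])),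
            ENNReal.ofReal_mul (by positivity), ENNReal.ofReal_rpow_of_pos hr,
            ← ENNReal.ofReal_rpow_of_pos (by norm_num)]
          norm_num
        have e2 : (2 : ℝ≥0∞) ^ p = 2 ^ (p - 1) * 2 := by
          conv_rhs => rw [← ENNReal.rpow_one 2, ← ENNReal.rpow_mul, one_mul]
          rw [← ENNReal.rpow_add _ _ (by norm_num) (by norm_num)]
          congr 1
          ring
        rw [e1, e2]
        ring

end Pool.Agent.W782.FD.Pot2
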