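import Pool.Agent.W785.FD.Stms

/-! FD-PPP (helper782): the `(p,p)` inequality. -/

set_option autoImplicit false

open MeasureTheory Metric Set Filter
open scoped ENNReal NNReal Topology

namespace Pool.Agent.W782.FD.Ppp

open Pool.Agent.W785.FD

theorem mean_diff {X : Type*} [MetricSpace X] [ProperSpace X] [MeasurableSpace X] [BorelSpace X]
    {μ : Measure X} {D : ℝ} (hD : Dbl μ D) {u : X → ℝ} (hu : LI μ u) {x y : X} {r : ℝ}
    (hr : 0 < r) (hy : y ∈ ball x r) :
    ENNReal.ofReal |mean μ u y (2 * r) - mean μ u x r| ≤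
      ENNReal.ofReal (D ^ 2) * osc μ u y (2 * r) := by
  have hyx : dist y x < r := hy
  have hpos := hD.pos x r hr
  have hfin := hD.fin x r
  have hposy := hD.pos y (2 * r) (by positivity)
  have hfiny := hD.fin y (2 * r)
  have hsub : ball x r ⊆ ball y (2 * r) := by
    intro z hz
    rw [mem_ball] at hz ⊢
    have := dist_triangle z x y
    rw [dist_comm x y] at this
    linarith
  have hsub2 : ball y (2 * r) ⊆ ball x (2 * (2 * r)) := by
    intro z hz
    rw [mem_ball] at hz ⊢
    have := dist_triangle z y x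
    linarith
  have hmu : μ (ball y (2 * r)) ≤ ENNReal.ofReal (D ^ 2) * μ (ball x r) := by
    refine (measure_mono hsub2).trans ((hD.dbl x (2 * r) (by positivity)).trans ?_)
    rw [ENNReal.ofReal_pow (by linarith [hD.one_le]), sq, mul_assoc]
    gcongr
    exact hD.dbl x r hr
  set c := mean μ u y (2 * r) with hc
  -- the difference of the means
  have h1 : mean μ u x r - c = ⨍ z in ball x r, (u z - c) ∂μ := by
    have : IsFiniteMeasure (μ.restrict (ball x r)) := ⟨by
      rw [Measure.restrict_apply MeasurableSet.univ, univ_inter]; exact hfin⟩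
    have : NeZero (μ.restrict (ball x r)) := ⟨by
      intro h
      have h2 := congrArg (fun ν : Measure X => ν univ) h
      simp only [Measure.restrict_apply MeasurableSet.univ, univ_inter, Measure.coe_zero,
        Pi.zero_apply] at h2
      exact hpos.ne' h2⟩
    unfold mean
    rw [average_eq, average_eq, integral_sub (hu x r) (integrable_const _), smul_sub]
    congr 1
    rw [integral_const, smul_smul]
    have : (μ.restrict (ball x r)).real univ ≠ 0 := by
      rw [measureReal_def, Measure.restrict_apply MeasurableSet.univ, univ_inter]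
      exact (ENNReal.toReal_pos hpos.ne' hfin.ne).ne'
    rw [inv_mul_cancel₀ this, one_smul]
  have h2 : ENNReal.ofReal |mean μ u x r - c| ≤
      (∫⁻ z in ball x r, ENNReal.ofReal |u z - c| ∂μ) / μ (ball x r) := by
    rw [h1, average_eq, ← Real.norm_eq_abs, norm_smul, norm_inv, Real.norm_eq_abs, Real.norm_eq_abs,
      abs_of_nonneg measureReal_nonneg, measureReal_def, Measure.restrict_apply MeasurableSet.univ,
      univ_inter, ENNReal.ofReal_mul (by positivity), ENNReal.ofReal_inv_of_pos
        (ENNReal.toReal_pos hpos.ne' hfin.ne), ENNReal.ofReal_toReal hfin.ne, mul_comm,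
      ← div_eq_mul_inv]
    gcongr
    rw [← Real.norm_eq_abs]
    have h3 := enorm_integral_le_lintegral_enorm (μ := μ.restrict (ball x r)) (fun z => u z - c)
    have e1 : ENNReal.ofReal ‖∫ z in ball x r, (u z - c) ∂μ‖ = ‖∫ z in ball x r, (u z - c) ∂μ‖ₑ :=
      ofReal_norm _
    rw [e1]
    refine h3.trans (lintegral_mono fun z => ?_)
    rw [← Real.norm_eq_abs, ofReal_norm]
  rw [abs_sub_comm]
  refine h2.trans ?_
  unfold osc lav
  rw [← hc, ENNReal.div_le_iff hpos.ne' hfin.ne]
  calc ∫⁻ z in ball x r, ENNReal.ofReal |u z - c| ∂μ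
      ≤ ∫⁻ z in ball y (2 * r), ENNReal.ofReal |u z - c| ∂μ := lintegral_mono_set hsub
    _ = (∫⁻ z in ball y (2 * r), ENNReal.ofReal |u z - c| ∂μ) / μ (ball y (2 * r)) *
          μ (ball y (2 * r)) := (ENNReal.div_mul_cancel hposy.ne' hfiny.ne).symm
    _ ≤ (∫⁻ z in ball y (2 * r), ENNReal.ofReal |u z - c| ∂μ) / μ (ball y (2 * r)) *
          (ENNReal.ofReal (D ^ 2) * μ (ball x r)) := by gcongr
    _ = _ := by ring

theorem main {X : Type*} [MetricSpace X] [ProperSpace X] [MeasurableSpace X] [BorelSpace X]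
    (μ : Measure X) (p D : ℝ) (hp : 1 < p) (hD : Dbl μ D) (h1 : S_POT1 μ p D)
    (h2 : S_POT2 μ p D) : S_PPP μ p := by
  intro K Λ hK hΛ
  have hp0 : 0 < p := by linarith
  have hD0 : 0 < D := by linarith [hD.one_le]
  set A : ℝ := (D + D ^ 2) * K with hA
  have hA0 : 0 ≤ A := by positivity
  refine ⟨A ^ p * (2 ^ p * D * 2 ^ p) + 1, by positivity, ?_⟩
  intro u g hu hg hPP x r hr
  have h3 : ∀ᵐ y ∂(μ.restrict (ball x r)), (ENNReal.ofReal |u y - mean μ u x r|) ^ p ≤
      ENNReal.ofReal A ^ p * Pot μ p g Λ (2 * r) y ^ p := by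
    have h4 := ae_restrict_of_ae (s := ball x r) (h1 K Λ hK hΛ u g hu hPP)
    filter_upwards [h4, ae_restrict_mem measurableSet_ball] with y hy hyb
    rw [← ENNReal.mul_rpow_of_nonneg _ _ hp0.le]
    apply ENNReal.rpow_le_rpow _ hp0.le
    have a1 := hy (2 * r) (by positivity)
    have a2 := mean_diff hD hu hr hyb
    have a3 : osc μ u y (2 * r) ≤ ENNReal.ofReal K * Pot μ p g Λ (2 * r) y := by
      refine (hPP y (2 * r) (by positivity)).trans ?_
      unfold Pot
      have a4 := ENNReal.le_tsum (f := fun i : ℕ => ENNReal.ofReal (2 * r / 2 ^ i) *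
        (lav μ (fun y => g y ^ p) y (Λ * (2 * r / 2 ^ i))) ^ (1 / p)) 0
      simp only [pow_zero, div_one] at a4
      rw [ENNReal.ofReal_mul hK, mul_assoc]
      gcongr
    calc ENNReal.ofReal |u y - mean μ u x r|
        ≤ ENNReal.ofReal (|u y - mean μ u y (2 * r)| + |mean μ u y (2 * r) - mean μ u x r|) := by
          apply ENNReal.ofReal_le_ofReal
          exact abs_sub_le _ _ _
      _ = ENNReal.ofReal |u y - mean μ u y (2 * r)| +
            ENNReal.ofReal |mean μ u y (2 * r) - mean μ u x r| :=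
          ENNReal.ofReal_add (abs_nonneg _) (abs_nonneg _)
      _ ≤ ENNReal.ofReal (D * K) * Pot μ p g Λ (2 * r) y +
            ENNReal.ofReal (D ^ 2) * (ENNReal.ofReal K * Pot μ p g Λ (2 * r) y) := by
          gcongr
          exact a2.trans (by gcongr)
      _ = ENNReal.ofReal A * Pot μ p g Λ (2 * r) y := by
          rw [← mul_assoc, ← add_mul, ← ENNReal.ofReal_mul (by positivity),
            ← ENNReal.ofReal_add (by positivity) (by positivity)]
          congr 2
          rw [hA]; ring
  calc ∫⁻ y in ball x r, (ENNReal.ofReal |u y - mean μ u x r|) ^ p ∂μ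
      ≤ ∫⁻ y in ball x r, ENNReal.ofReal A ^ p * Pot μ p g Λ (2 * r) y ^ p ∂μ :=
        lintegral_mono_ae h3
    _ = ENNReal.ofReal A ^ p * ∫⁻ y in ball x r, Pot μ p g Λ (2 * r) y ^ p ∂μ :=
        lintegral_const_mul' _ _ (ENNReal.rpow_ne_top_of_nonneg hp0.le ENNReal.ofReal_ne_top)
    _ ≤ ENNReal.ofReal A ^ p * (ENNReal.ofReal (2 ^ p * D * (2 * r) ^ p) *
          ∫⁻ y in ball x (r + Λ * (2 * r)), g y ^ p ∂μ) := by
        gcongr
        exact h2 Λ (by linarith) g hg x r (2 * r) hr (by positivity)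
    _ = ENNReal.ofReal (A ^ p * (2 ^ p * D * (2 * r) ^ p)) *
          ∫⁻ y in ball x ((1 + 2 * Λ) * r), g y ^ p ∂μ := by
        rw [← mul_assoc, ENNReal.ofReal_rpow_of_nonneg hA0 hp0.le, ← ENNReal.ofReal_mul (by positivity)]
        congr 3
        ring_nf
    _ ≤ _ := by
        refine mul_le_mul_left (ENNReal.ofReal_le_ofReal ?_) _
        rw [Real.mul_rpow (by norm_num) hr.le]
        have : 0 ≤ r ^ p := by positivity
        nlinarith

end Pool.Agent.W782.FD.Ppp
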